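import Mathlib
import Pool.Agent.Lib_helper94.XO.Defs
import Pool.Agent.Lib_helper94.XO.Pr
import Pool.Agent.Lib_helper94.XO.Defs2
set_option autoImplicit false

/-! PART II: the outcome of the probabilistic half. -/

namespace Pool.Agent.XO

open Finset Filter

variable {V : Type} [AddCommGroup V] [Fintype V] [DecidableEq V]

/-- a tuple `y` outside all bad events; `K` is the support map, `Hb` the set of hubs -/
structure Sel (p : V → ℝ) (σ : V → V → V × V) {n M : ℕ} (Λ M₀ G : ℕ) (v : ℝ)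
    (K : V → Finset (Fin n)) (Hb : Finset (Fin n)) (y : Fin M → V) : Prop where
  ok : M₀ ≤ (univ.filter fun a => (K (y a)).card ≤ Λ).card
  reach : ∀ g ≤ G, ∀ c, Reach σ y g c → Eff p v (∑ i, y i) c ∧ Function.Injective c
  cons : ∀ c c' : Fin M → V, Eff p v (∑ i, y i) c → Eff p v (∑ i, y i) c' →
    (univ.biUnion fun a => K (c a)) = univ.biUnion fun a => K (c' a)
  disj : ∀ c : Fin M → V, Eff p v (∑ i, y i) c → ∀ a b, a ≠ b →
    Disjoint (K (c a) \ Hb) (K (c b) \ Hb)
  uniq : ∀ c c' : Fin M → V, Eff p v (∑ i, y i) c → Eff p v (∑ i, y i) c' → ∀ a a',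
    K (c a) \ Hb = K (c' a') \ Hb → c a = c' a'

end Pool.Agent.XO
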