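import Mathlib
import Pool.Agent.Lib_helper94.XO.Defs
import Pool.Agent.Lib_helper94.XO.Defs2
import Pool.Agent.Lib_helper94.XO.Sel.SelDef
set_option autoImplicit false

/-! PART II, group Z: from the selection to the ACT system (sel_act). -/

namespace Pool.Agent.XO

open Finset

/-- the tuple `c` on the positions `ι`, the tuple `y` elsewhere -/
noncomputable def act_lift {S : Type} {M M' : ℕ} (ι : Fin M → Fin M') (y : Fin M' → S)
    (c : Fin M → S) : Fin M' → S :=
  fun i => if h : ∃ a, ι a = i then c h.choose else y i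

theorem act_lift_apply {S : Type} {M M' : ℕ} {ι : Fin M → Fin M'} (hι : Function.Injective ι)
    (y : Fin M' → S) (c : Fin M → S) (a : Fin M) : act_lift ι y c (ι a) = c a := by
  unfold act_lift
  have h : ∃ b, ι b = ι a := ⟨a, rfl⟩
  rw [dif_pos h]
  congr 1
  exact hι h.choose_spec

theorem act_lift_off {S : Type} {M M' : ℕ} {ι : Fin M → Fin M'}
    (y : Fin M' → S) (c : Fin M → S) (i : Fin M') (hi : ∀ a, ι a ≠ i) :
    act_lift ι y c i = y i := by
  unfold act_lift
  rw [dif_neg]
  rintro ⟨a, ha⟩
  exact hi a ha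

theorem act_lift_self {S : Type} {M M' : ℕ} {ι : Fin M → Fin M'} (hι : Function.Injective ι)
    (y : Fin M' → S) : act_lift ι y (fun a => y (ι a)) = y := by
  funext i
  by_cases h : ∃ a, ι a = i
  · obtain ⟨a, rfl⟩ := h
    exact act_lift_apply hι y _ a
  · exact act_lift_off y _ i (fun a ha => h ⟨a, ha⟩)

theorem act_lift_update {S : Type} {M M' : ℕ} {ι : Fin M → Fin M'} (hι : Function.Injective ι)
    (y : Fin M' → S) (c : Fin M → S) (a : Fin M) (x : S) :
    act_lift ι y (Function.update c a x) = Function.update (act_lift ι y c) (ι a) x := by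
  funext i
  by_cases h : ∃ b, ι b = i
  · obtain ⟨b, rfl⟩ := h
    rw [act_lift_apply hι]
    by_cases hb : b = a
    · subst hb
      rw [Function.update_self, Function.update_self]
    · rw [Function.update_of_ne hb, Function.update_of_ne (fun h => hb (hι h)),
        act_lift_apply hι]
  · have h' : ∀ b, ι b ≠ i := fun b hb => h ⟨b, hb⟩
    rw [act_lift_off y _ i h', Function.update_of_ne (fun hi => h' a hi.symm),
      act_lift_off y _ i h']

/-- gates on the sub-tuple are gates on the tuple -/
theorem act_reach {S : Type} {M M' : ℕ} {ι : Fin M → Fin M'} (hι : Function.Injective ι)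
    (σ : S → S → S × S) (y : Fin M' → S) {g : ℕ} {c : Fin M → S}
    (h : Reach σ (fun a => y (ι a)) g c) : Reach σ y g (act_lift ι y c) := by
  induction h with
  | zero => rw [act_lift_self hι]; exact Reach.zero
  | step a b hab h ih =>
    rename_i g c
    have h1 := Reach.step (ι a) (ι b) (fun h => hab (hι h)) ih
    rw [act_lift_apply hι, act_lift_apply hι] at h1
    rw [act_lift_update hι, act_lift_update hι]
    exact h1

theorem act_pw_ne {V : Type} {p : V → ℝ} {M : ℕ} {c : Fin M → V} (h : 0 < pw p c) (a : Fin M) :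
    p (c a) ≠ 0 := by
  intro h0
  have : pw p c = 0 := Finset.prod_eq_zero (Finset.mem_univ a) h0
  rw [this] at h
  exact lt_irrefl _ h

variable {V : Type} [AddCommGroup V] [Fintype V] [DecidableEq V]

/-- the deterministic half of PART II (helper76) -/
theorem sel_act_pr {p e : V → ℝ} (he : ∀ c, e c = 1 ∨ e c = -1) {σ : V → V → V × V}
    (hσ : IsGate p e σ) {n M Λ M₀ G : ℕ} {v : ℝ} {K : V → Finset (Fin n)} {Hb : Finset (Fin n)}
    {y : Fin M → V} (h : Sel p σ Λ M₀ G v K Hb y) :
    ∃ (K' : V → Finset ℕ) (y' : Fin M₀ → V), ACT Λ G e σ K' y' := by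
  have h1 := h.ok
  have h2 := h.reach
  have h3 := h.cons
  have h4 := h.disj
  have h5 := h.uniq
  obtain ⟨s, hs, hsc⟩ := Finset.exists_subset_card_eq h1
  let ι : Fin M₀ → Fin M := fun a => (s.equivFinOfCardEq hsc).symm a
  have hι : Function.Injective ι := by
    intro a b hab
    exact (s.equivFinOfCardEq hsc).symm.injective (Subtype.ext hab)
  have hιs : ∀ a, (K (y (ι a))).card ≤ Λ := by
    intro a
    have := hs ((s.equivFinOfCardEq hsc).symm a).2
    exact (Finset.mem_filter.1 this).2
  have hL : ∀ g ≤ G, ∀ c, Reach σ (fun a => y (ι a)) g c →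
      Eff p v (∑ i, y i) (act_lift ι y c) ∧ Function.Injective (act_lift ι y c) :=
    fun g hg c hc => h2 g hg _ (act_reach hι σ y hc)
  refine ⟨fun c => (K c \ Hb).map Fin.valEmbedding, fun a => y (ι a), ?_⟩
  refine ⟨he, ?_, ?_, ?_, ?_, ?_⟩
  · intro g hg c hc a b hab
    rw [Finset.disjoint_map]
    have := h4 _ (hL g hg c hc).1 (ι a) (ι b) (fun h => hab (hι h))
    rwa [act_lift_apply hι, act_lift_apply hι] at this
  · intro g hg c hc
    have hEc := (hL g hg c hc).1
    have hEy : Eff p v (∑ i, y i) y := (h2 0 (Nat.zero_le _) y Reach.zero).1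
    have hU := h3 _ y hEc hEy
    -- an element of the support at a position of `ι`
    have key : ∀ (c c' : Fin M₀ → V), Eff p v (∑ i, y i) (act_lift ι y c) →
        Eff p v (∑ i, y i) (act_lift ι y c') → ∀ a, ∀ j ∈ K (c a) \ Hb,
        ∃ b, j ∈ K (c' b) \ Hb := by
      intro c c' hE hE' a j hj
      have hj1 := Finset.mem_sdiff.1 hj
      have h6 : j ∈ univ.biUnion fun i => K (act_lift ι y c i) := by
        rw [Finset.mem_biUnion]
        exact ⟨ι a, Finset.mem_univ _, by rw [act_lift_apply hι]; exact hj1.1⟩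
      rw [h3 _ _ hE hE', Finset.mem_biUnion] at h6
      obtain ⟨i, -, hi⟩ := h6
      by_cases hia : ∃ b, ι b = i
      · obtain ⟨b, rfl⟩ := hia
        rw [act_lift_apply hι] at hi
        exact ⟨b, Finset.mem_sdiff.2 ⟨hi, hj1.2⟩⟩
      · exfalso
        have hi' : ∀ b, ι b ≠ i := fun b hb => hia ⟨b, hb⟩
        rw [act_lift_off y _ i hi'] at hi
        have h7 := h4 _ hE (ι a) i (hi' a)
        rw [act_lift_apply hι, act_lift_off y _ i hi', Finset.disjoint_left] at h7
        exact h7 hj (Finset.mem_sdiff.2 ⟨hi, hj1.2⟩)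
    have hEy' : Eff p v (∑ i, y i) (act_lift ι y (fun a => y (ι a))) := by
      rw [act_lift_self hι]; exact hEy
    ext j
    simp only [Finset.mem_biUnion, Finset.mem_univ, true_and, Finset.mem_map]
    constructor
    · rintro ⟨a, i, hi, rfl⟩
      obtain ⟨b, hb⟩ := key c _ hEc hEy' a i hi
      exact ⟨b, i, hb, rfl⟩
    · rintro ⟨a, i, hi, rfl⟩
      obtain ⟨b, hb⟩ := key _ c hEy' hEc a i hi
      exact ⟨b, i, hb, rfl⟩
  · intro g hg c hc a b hab
    obtain ⟨hE, hinj⟩ := hL g hg c hc
    have ha := act_pw_ne hE.2.2 (ι a)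
    have hb := act_pw_ne hE.2.2 (ι b)
    rw [act_lift_apply hι] at ha hb
    have hne : c a ≠ c b := by
      intro h
      apply hab
      apply hι
      apply hinj
      rw [act_lift_apply hι, act_lift_apply hι, h]
    exact (hσ (c a) (c b) ha hb hne).2.2.1
  · intro g hg g' hg' c c' hc hc' a a' hK
    have hK' := Finset.map_injective _ hK
    have h6 := h5 _ _ (hL g hg c hc).1 (hL g' hg' c' hc').1 (ι a) (ι a')
    rw [act_lift_apply hι, act_lift_apply hι] at h6
    rw [h6 hK']
  · intro a
    rw [Finset.card_map]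
    exact (Finset.card_le_card Finset.sdiff_subset).trans (hιs a)

end Pool.Agent.XO
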