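import Mathlib
import Pool.Agent.Lib_helper94.XO.Defs
import Pool.Agent.Lib_helper94.XO.Pr
import Pool.Agent.Lib_helper94.XO.P2
import Pool.Agent.Lib_helper94.XO.Sel.SelDef
set_option autoImplicit false

/-! PART II, assembly: the bad events one by one. -/

namespace Pool.Agent.XO

open Finset Filter

variable {V : Type} [AddCommGroup V] [Fintype V] [DecidableEq V]

/-! ### transfer to one or two entries -/

theorem lb_coord {p : V → ℝ} (hp : IsLaw p) {n M : ℕ} (hM : M ≤ n) (a : Fin M)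
    (A : (Fin n → V) → V → Prop) :
    pr (LB p n M) (fun x => A x.1 (x.2 a)) = pr (LB p n 1) (fun x => A x.1 (x.2 0)) :=
  lb_marg hp hM (fun _ : Fin 1 => a) (fun i j _ => Subsingleton.elim i j)
    (fun z y => A z (y 0))

theorem lb_pair {p : V → ℝ} (hp : IsLaw p) {n M : ℕ} (hM : M ≤ n) {a b : Fin M} (hab : a ≠ b)
    (A : (Fin n → V) → V → V → Prop) :
    pr (LB p n M) (fun x => A x.1 (x.2 a) (x.2 b)) =
      pr (LB p n 2) (fun x => A x.1 (x.2 0) (x.2 1)) := by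
  have hι : Function.Injective ![a, b] := by
    intro i j hij
    fin_cases i <;> fin_cases j <;> simp_all
  exact lb_marg hp hM ![a, b] hι (fun z y => A z (y 0) (y 1))

/-! ### E1: the inputs -/

open Classical in
theorem ok_pr {p : V → ℝ} (hp : IsLaw p) {n : ℕ} (hn : 2 ≤ n) {T w θ Q : ℝ} {Λ : ℕ}
    (hθ : 0 < θ) (hw0 : 0 < w) (hw : w ≤ Real.exp (-T))
    (hQ : n * (12 * Del p T n + 2 * Real.exp T * θ) ≤ Q) (hΛ0 : 0 < Λ) (hΛ : 8 * Q ≤ Λ)
    (ht : pr (LB p n 1) (fun x => mu p n (∑ i, x.1 i) (x.2 0) < Real.exp (-T)) ≤ 1 / 8) :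
    pr (LB p n 1) (fun x => ¬ (KK p w θ x.1 (x.2 0)).card ≤ Λ) ≤ 1 / 4 := by
  have hl := lb_law hp (show 1 ≤ n by omega)
  have hΛ' : (0 : ℝ) < Λ := by exact_mod_cast hΛ0
  have h1 := kk_card hp hn hθ hw0 hw
  have h2 := pr_markov hl.nonneg (fun x => if Real.exp (-T) ≤ mu p n (∑ i, x.1 i) (x.2 0) then
      ((KK p w θ x.1 (x.2 0)).card : ℝ) else 0) (fun x => by split_ifs <;> positivity) hΛ'
  have h3 : (∑ x, LB p n 1 x * (if Real.exp (-T) ≤ mu p n (∑ i, x.1 i) (x.2 0) then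
      ((KK p w θ x.1 (x.2 0)).card : ℝ) else 0)) / Λ ≤ 1 / 8 := by
    rw [div_le_iff₀ hΛ']
    linarith
  have h4 : pr (LB p n 1) (fun x => ¬ (KK p w θ x.1 (x.2 0)).card ≤ Λ) ≤
      pr (LB p n 1) (fun x => mu p n (∑ i, x.1 i) (x.2 0) < Real.exp (-T) ∨
        (Λ : ℝ) ≤ (if Real.exp (-T) ≤ mu p n (∑ i, x.1 i) (x.2 0) then
      ((KK p w θ x.1 (x.2 0)).card : ℝ) else 0)) := by
    apply pr_mono hl.nonneg
    intro x _ hx
    by_cases h : Real.exp (-T) ≤ mu p n (∑ i, x.1 i) (x.2 0)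
    · right
      rw [if_pos h]
      push Not at hx
      exact_mod_cast hx.le
    · left
      exact not_le.1 h
  have h5 := pr_or_le hl.nonneg (fun x => mu p n (∑ i, x.1 i) (x.2 0) < Real.exp (-T))
    (fun x => (Λ : ℝ) ≤ (if Real.exp (-T) ≤ mu p n (∑ i, x.1 i) (x.2 0) then
      ((KK p w θ x.1 (x.2 0)).card : ℝ) else 0))
  linarith

/-- the expectation of a number of bad entries -/
theorem count_pr {Ω : Type} [Fintype Ω] {P : Ω → ℝ} (hP : IsLaw P) {M₀ : ℕ}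
    (A : Fin (4 * M₀) → Ω → Prop) [∀ a ω, Decidable (A a ω)] (hA : ∀ a, pr P (fun ω => ¬ A a ω) ≤ 1 / 4) :
    pr P (fun ω => ¬ M₀ ≤ (univ.filter fun a => A a ω).card) ≤ 1 / 3 := by
  rcases Nat.eq_zero_or_pos M₀ with h0 | h0
  · subst h0
    have : pr P (fun ω => ¬ 0 ≤ (univ.filter fun a : Fin (4 * 0) => A a ω).card) = 0 := by
      unfold pr
      simp
    rw [this]
    norm_num
  have h1 := pr_markov hP.nonneg
    (fun ω => ((univ.filter fun a => ¬ A a ω).card : ℝ)) (fun ω => Nat.cast_nonneg _)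
    (show (0 : ℝ) < 3 * M₀ by positivity)
  have h2 : ∑ ω, P ω * ((univ.filter fun a => ¬ A a ω).card : ℝ) =
      ∑ a, pr P (fun ω => ¬ A a ω) := by
    unfold pr
    rw [Finset.sum_comm]
    refine Finset.sum_congr rfl fun ω _ => ?_
    rw [Finset.card_filter]
    push_cast
    rw [Finset.mul_sum]
    refine Finset.sum_congr rfl fun a _ => ?_
    split_ifs <;> simp
  have h3 : ∑ a, pr P (fun ω => ¬ A a ω) ≤ M₀ := by
    calc ∑ a, pr P (fun ω => ¬ A a ω) ≤ ∑ a : Fin (4 * M₀), (1 / 4 : ℝ) :=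
          Finset.sum_le_sum fun a _ => hA a
      _ = M₀ := by
        rw [Finset.sum_const, Finset.card_univ, Fintype.card_fin, nsmul_eq_mul]
        push_cast
        ring
  have h4 : pr P (fun ω => ¬ M₀ ≤ (univ.filter fun a => A a ω).card) ≤
      pr P (fun ω => (3 * M₀ : ℝ) ≤ ((univ.filter fun a => ¬ A a ω).card : ℝ)) := by
    apply pr_mono hP.nonneg
    intro ω _ hω
    have h5 : (univ.filter fun a => A a ω).card + (univ.filter fun a => ¬ A a ω).card =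
        4 * M₀ := by
      rw [Finset.card_filter_add_card_filter_not, Finset.card_univ, Fintype.card_fin]
    push Not at hω
    have h6 : 3 * M₀ ≤ (univ.filter fun a => ¬ A a ω).card := by omega
    exact_mod_cast h6
  have h7 : (M₀ : ℝ) / (3 * M₀) = 1 / 3 := by
    have : (M₀ : ℝ) ≠ 0 := by positivity
    field_simp
  calc pr P (fun ω => ¬ M₀ ≤ (univ.filter fun a => A a ω).card) ≤
        (∑ a, pr P (fun ω => ¬ A a ω)) / (3 * M₀) := by
        rw [← h2]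
        exact h4.trans h1
    _ ≤ M₀ / (3 * M₀) := div_le_div_of_nonneg_right h3 (by positivity)
    _ = 1 / 3 := h7

/-! ### E5: the stable rung at all entries of effective tuples -/

theorem eff_entry {p : V → ℝ} (hp : IsLaw p) {n M : ℕ} (hM : M ≤ n) {v η : ℝ} (hv : 0 < v)
    (A : (Fin n → V) → V → Prop)
    (hA : pr (LB p n 1) (fun x => A x.1 (x.2 0)) ≤ η) :
    pr (LB p n M) (fun x => ∃ c : Fin M → V, Eff p v (∑ i, x.2 i) c ∧ ∃ a, A x.1 (c a)) ≤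
      (1 / v) * (M * η) := by
  have hl := lb_law hp hM
  refine (eff_markov hp hM hv (fun z c => ∃ a, A z (c a))).trans ?_
  apply mul_le_mul_of_nonneg_left _ (by positivity)
  refine (pr_exists_le hl.nonneg (fun a x => A x.1 (x.2 a))).trans ?_
  calc ∑ a : Fin M, pr (LB p n M) (fun x => A x.1 (x.2 a)) ≤ ∑ a : Fin M, η := by
        apply Finset.sum_le_sum
        intro a _
        rw [lb_coord hp hM a A]
        exact hA
    _ = M * η := by
        rw [Finset.sum_const, Finset.card_univ, Fintype.card_fin, nsmul_eq_mul]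

theorem eff_pair {p : V → ℝ} (hp : IsLaw p) {n M : ℕ} (hM : M ≤ n) {v η : ℝ} (hv : 0 < v)
    (hη : 0 ≤ η) (A : (Fin n → V) → V → V → Prop)
    (hA : pr (LB p n 2) (fun x => A x.1 (x.2 0) (x.2 1)) ≤ η) :
    pr (LB p n M) (fun x => ∃ c : Fin M → V, Eff p v (∑ i, x.2 i) c ∧
      ∃ a b, a ≠ b ∧ A x.1 (c a) (c b)) ≤ (1 / v) * ((M : ℝ) ^ 2 * η) := by
  have hl := lb_law hp hM
  refine (eff_markov hp hM hv (fun z c => ∃ a b, a ≠ b ∧ A z (c a) (c b))).trans ?_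
  apply mul_le_mul_of_nonneg_left _ (by positivity)
  have h1 : pr (LB p n M) (fun x => ∃ a b, a ≠ b ∧ A x.1 (x.2 a) (x.2 b)) ≤
      pr (LB p n M) (fun x => ∃ ab : Fin M × Fin M, ab.1 ≠ ab.2 ∧
        A x.1 (x.2 ab.1) (x.2 ab.2)) := by
    apply pr_mono hl.nonneg
    rintro x _ ⟨a, b, hab, h⟩
    exact ⟨(a, b), hab, h⟩
  refine h1.trans ?_
  refine (pr_exists_le hl.nonneg (fun (ab : Fin M × Fin M) x => ab.1 ≠ ab.2 ∧
    A x.1 (x.2 ab.1) (x.2 ab.2))).trans ?_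
  calc ∑ ab : Fin M × Fin M, pr (LB p n M) (fun x => ab.1 ≠ ab.2 ∧
          A x.1 (x.2 ab.1) (x.2 ab.2)) ≤ ∑ ab : Fin M × Fin M, η := by
        apply Finset.sum_le_sum
        intro ab _
        by_cases hab : ab.1 = ab.2
        · have : pr (LB p n M) (fun x => ab.1 ≠ ab.2 ∧ A x.1 (x.2 ab.1) (x.2 ab.2)) = 0 := by
            classical
            unfold pr
            simp [hab]
          rw [this]
          exact hη
        · refine (pr_mono hl.nonneg (fun x _ hx => hx.2)).trans ?_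
          rw [lb_pair hp hM hab A]
          exact hA
    _ = (M : ℝ) ^ 2 * η := by
        rw [Finset.sum_const, Finset.card_univ, Fintype.card_prod, Fintype.card_fin,
          nsmul_eq_mul]
        push_cast
        ring

theorem stab_one {p : V → ℝ} (hp : IsLaw p) {n : ℕ} (hn : 1 ≤ n) {T w θ θ' Q' δ' : ℝ}
    (hs : pr (LB p n 1) (fun x => Real.exp (-T) ≤ mu p n (∑ i, x.1 i) (x.2 0) ∧
      KK p w θ x.1 (x.2 0) ≠ KK p w θ' x.1 (x.2 0)) ≤ Q')
    (ht : pr (LB p n 1) (fun x => mu p n (∑ i, x.1 i) (x.2 0) < Real.exp (-T)) ≤ δ') :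
    pr (LB p n 1) (fun x => KK p w θ x.1 (x.2 0) ≠ KK p w θ' x.1 (x.2 0)) ≤ Q' + δ' := by
  have hl := lb_law hp hn
  have h1 : pr (LB p n 1) (fun x => KK p w θ x.1 (x.2 0) ≠ KK p w θ' x.1 (x.2 0)) ≤
      pr (LB p n 1) (fun x => (Real.exp (-T) ≤ mu p n (∑ i, x.1 i) (x.2 0) ∧
      KK p w θ x.1 (x.2 0) ≠ KK p w θ' x.1 (x.2 0)) ∨
      mu p n (∑ i, x.1 i) (x.2 0) < Real.exp (-T)) := by
    apply pr_mono hl.nonneg
    intro x _ hx
    by_cases h : Real.exp (-T) ≤ mu p n (∑ i, x.1 i) (x.2 0)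
    · exact Or.inl ⟨h, hx⟩
    · exact Or.inr (not_le.1 h)
  have h2 := pr_or_le hl.nonneg (fun x => Real.exp (-T) ≤ mu p n (∑ i, x.1 i) (x.2 0) ∧
      KK p w θ x.1 (x.2 0) ≠ KK p w θ' x.1 (x.2 0))
      (fun x => mu p n (∑ i, x.1 i) (x.2 0) < Real.exp (-T))
  linarith

/-! ### E6: disjointness -/

theorem disj_two {p : V → ℝ} (hp : IsLaw p) {n : ℕ} (hn : 2 ≤ n) {T w θ δ δ' Q : ℝ}
    (hθ : 0 < θ) (hw0 : 0 < w) (hw : w ≤ Real.exp (-T)) (hδ : 0 < δ)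
    (hQ : n * (12 * Del p T n + 2 * Real.exp T * θ) ≤ Q)
    (ht : pr (LB p n 1) (fun x => mu p n (∑ i, x.1 i) (x.2 0) < Real.exp (-T)) ≤ δ') :
    pr (LB p n 2) (fun x => ∃ j, j ∉ Hub p T w θ δ x.1 ∧ j ∈ KK p w θ x.1 (x.2 0) ∧
      j ∈ KK p w θ x.1 (x.2 1)) ≤ 2 * δ' + δ * Q + 2 * √(Del p T n) := by
  have hl := lb_law hp hn
  have h0 := disj_pr hp hn hθ hw0 hw hδ hQ
  have t0 : pr (LB p n 2) (fun x => mu p n (∑ i, x.1 i) (x.2 0) < Real.exp (-T)) ≤ δ' := by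
    rw [lb_coord hp hn 0 (fun z c => mu p n (∑ i, z i) c < Real.exp (-T))]
    exact ht
  have t1 : pr (LB p n 2) (fun x => mu p n (∑ i, x.1 i) (x.2 1) < Real.exp (-T)) ≤ δ' := by
    rw [lb_coord hp hn 1 (fun z c => mu p n (∑ i, z i) c < Real.exp (-T))]
    exact ht
  have h1 : pr (LB p n 2) (fun x => ∃ j, j ∉ Hub p T w θ δ x.1 ∧
      j ∈ KK p w θ x.1 (x.2 0) ∧ j ∈ KK p w θ x.1 (x.2 1)) ≤
      pr (LB p n 2) (fun x => (Real.exp (-T) ≤ mu p n (∑ i, x.1 i) (x.2 0) ∧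
      Real.exp (-T) ≤ mu p n (∑ i, x.1 i) (x.2 1) ∧
      ∃ j, j ∉ Hub p T w θ δ x.1 ∧ j ∈ KK p w θ x.1 (x.2 0) ∧ j ∈ KK p w θ x.1 (x.2 1)) ∨
      (mu p n (∑ i, x.1 i) (x.2 0) < Real.exp (-T) ∨
        mu p n (∑ i, x.1 i) (x.2 1) < Real.exp (-T))) := by
    apply pr_mono hl.nonneg
    intro x _ hx
    by_cases ha : Real.exp (-T) ≤ mu p n (∑ i, x.1 i) (x.2 0)
    · by_cases hb : Real.exp (-T) ≤ mu p n (∑ i, x.1 i) (x.2 1)
      · exact Or.inl ⟨ha, hb, hx⟩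
      · exact Or.inr (Or.inr (not_le.1 hb))
    · exact Or.inr (Or.inl (not_le.1 ha))
  have h2 := pr_or_le hl.nonneg (fun x => Real.exp (-T) ≤ mu p n (∑ i, x.1 i) (x.2 0) ∧
      Real.exp (-T) ≤ mu p n (∑ i, x.1 i) (x.2 1) ∧
      ∃ j, j ∉ Hub p T w θ δ x.1 ∧ j ∈ KK p w θ x.1 (x.2 0) ∧ j ∈ KK p w θ x.1 (x.2 1))
      (fun x => mu p n (∑ i, x.1 i) (x.2 0) < Real.exp (-T) ∨
        mu p n (∑ i, x.1 i) (x.2 1) < Real.exp (-T))
  have h3 := pr_or_le hl.nonneg (fun x => mu p n (∑ i, x.1 i) (x.2 0) < Real.exp (-T))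
      (fun x => mu p n (∑ i, x.1 i) (x.2 1) < Real.exp (-T))
  linarith

end Pool.Agent.XO
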