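import Mathlib
import Pool.Agent.Lib_helper94.XO.Defs
import Pool.Agent.Lib_helper94.XO.Pr
import Pool.Agent.Lib_helper94.XO.P2
import Pool.Agent.Lib_helper94.XO.Sel.SelDef
import Pool.Agent.Lib_helper94.XO.Sel.SelA
set_option autoImplicit false

/-! PART II, assembly: popular sums and light elements; the core with fixed parameters. -/

namespace Pool.Agent.XO

open Finset Filter

variable {V : Type} [AddCommGroup V] [Fintype V] [DecidableEq V]

/-! ### E8: popular sums -/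

/-- the sums of at most `2 M` accessible elements -/
noncomputable def Gj (p : V → ℝ) {n : ℕ} (M : ℕ) (w θ : ℝ) (j : Fin n) (z : Fin n → V) :
    Finset V := Gs (Acl p n w θ (∑ i, z i - z j)) (2 * M)

theorem gj_dep (p : V → ℝ) {n : ℕ} (M : ℕ) (w θ : ℝ) (j : Fin n) (z z' : Fin n → V)
    (h : ∀ i, i ≠ j → z i = z' i) : Gj p M w θ j z = Gj p M w θ j z' := by
  have h1 : ∑ i, z i - z j = ∑ i, z' i - z' j := by
    rw [← Finset.add_sum_erase univ z (Finset.mem_univ j),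
      ← Finset.add_sum_erase univ z' (Finset.mem_univ j), add_sub_cancel_left,
      add_sub_cancel_left]
    exact Finset.sum_congr rfl fun i hi => h i (Finset.ne_of_mem_erase hi)
  unfold Gj
  rw [h1]

/-- the size -/
noncomputable def Gam (M : ℕ) (w θ : ℝ) : ℝ := (1 / (w * θ) + 1) ^ (2 * M + 1)

theorem gam_one {M : ℕ} {w θ : ℝ} (hw : 0 < w) (hθ : 0 < θ) : 1 ≤ Gam M w θ := by
  unfold Gam
  apply one_le_pow₀
  have : 0 < 1 / (w * θ) := by positivity
  linarith

theorem gj_card {p : V → ℝ} (hp : IsLaw p) {n : ℕ} (hn : 1 ≤ n) {M : ℕ} {w θ : ℝ} (hw : 0 < w)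
    (hθ : 0 < θ) (j : Fin n) (z : Fin n → V) : ((Gj p M w θ j z).card : ℝ) ≤ Gam M w θ := by
  unfold Gj Gam
  refine (gs_card _ _).trans ?_
  have h1 := acl_card hp hn hw hθ (∑ i, z i - z j)
  have h2 : 0 < 1 / (w * θ) := by positivity
  calc (((Acl p n w θ (∑ i, z i - z j)).card : ℝ) + 1) ^ (2 * M) ≤
        (1 / (w * θ) + 1) ^ (2 * M) := pow_le_pow_left₀ (by positivity) (by linarith) _
    _ ≤ (1 / (w * θ) + 1) ^ (2 * M + 1) := pow_le_pow_right₀ (by linarith) (by omega)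

theorem pop_all {p : V → ℝ} (hp : IsLaw p) {n : ℕ} (hn : 1 ≤ n) (M : ℕ) {w θ : ℝ} (hw : 0 < w)
    (hθ : 0 < θ) : ∃ GF : Finset (Fin n) → (Fin n → V) → Finset V,
      (∀ F z z', (∀ i, i ∉ F → z i = z' i) → GF F z = GF F z') ∧
      (∀ F z, ((GF F z).card : ℝ) ≤ Gam M w θ ^ (2 * n + 1)) ∧
      pr (fun z : Fin n → V => pw p z) (fun z => ∃ F : Finset (Fin n), F.Nonempty ∧
        ∃ g, (∀ j ∈ F, g ∈ Gj p M w θ j z) ∧ g ∉ GF F z) ≤ 2 ^ n * (n / Gam M w θ) := by
  have hΓ := gam_one (M := M) hw hθ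
  have key : ∀ F : Finset (Fin n), ∃ GF : (Fin n → V) → Finset V,
      (∀ z z', (∀ i, i ∉ F → z i = z' i) → GF z = GF z') ∧
      (∀ z, ((GF z).card : ℝ) ≤ Gam M w θ ^ (2 * n + 1)) ∧
      pr (fun z : Fin n → V => pw p z) (fun z => F.Nonempty ∧
        ∃ g, (∀ j ∈ F, g ∈ Gj p M w θ j z) ∧ g ∉ GF z) ≤ n / Gam M w θ := by
    intro F
    rcases F.eq_empty_or_nonempty with hF | hF
    · refine ⟨fun _ => ∅, fun _ _ _ => rfl, fun z => ?_, ?_⟩
      · simp only [Finset.card_empty, Nat.cast_zero]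
        positivity
      · have : pr (fun z : Fin n → V => pw p z) (fun z => F.Nonempty ∧
            ∃ g, (∀ j ∈ F, g ∈ Gj p M w θ j z) ∧ g ∉ (∅ : Finset V)) = 0 := by
          classical
          unfold pr
          simp [hF]
        rw [this]
        positivity
    · obtain ⟨GF, h1, h2, h3⟩ := popular hp hΓ (fun j z => Gj p M w θ j z)
        (fun j z z' h => gj_dep p M w θ j z z' h) (fun j z => gj_card hp hn hw hθ j z) F hF
      have hFn : F.card ≤ n := by
        have := Finset.card_le_univ F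
        rwa [Fintype.card_fin] at this
      refine ⟨GF, h1, fun z => (h2 z).trans (pow_le_pow_right₀ hΓ (by omega)), ?_⟩
      refine (pr_mono (pw_law hp n).nonneg (fun z _ hz => hz.2)).trans (h3.trans ?_)
      apply div_le_div_of_nonneg_right _ (by linarith)
      exact_mod_cast hFn
  choose GF h1 h2 h3 using key
  refine ⟨GF, h1, h2, ?_⟩
  refine (pr_exists_le (pw_law hp n).nonneg (fun (F : Finset (Fin n)) z => F.Nonempty ∧
    ∃ g, (∀ j ∈ F, g ∈ Gj p M w θ j z) ∧ g ∉ GF F z)).trans ?_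
  refine (Finset.sum_le_sum fun F _ => h3 F).trans ?_
  rw [Finset.sum_const, Finset.card_univ, Fintype.card_finset, Fintype.card_fin, nsmul_eq_mul]
  push_cast
  exact le_rfl

/-! ### E9: light elements -/

theorem light_ex [Module (ZMod 2) V] {p : V → ℝ} {s κ κ' : ℝ} (h : PWorld p s κ κ')
    (hs : 0 < s) {n : ℕ} {B : ℝ} (hB : B ≤ s ^ κ)
    (GF : Finset (Fin n) → (Fin n → V) → Finset V)
    (h1 : ∀ F z z', (∀ i, i ∉ F → z i = z' i) → GF F z = GF F z')
    (h2 : ∀ F z, ((GF F z).card : ℝ) ≤ B) :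
    ∃ Lt : Finset (Fin n) → (Fin n → V) → Finset V,
      (∀ H z z', (∀ i ∈ H, z i = z' i) → Lt H z = Lt H z') ∧
      (∀ H z, ∑ c ∈ Lt H z, p c ≤ s ^ (-κ')) ∧
      ∀ H z c c', p c ≠ 0 → p c' ≠ 0 → c ≠ c' → c + c' ∈ GF Hᶜ z → c ∈ Lt H z ∨ c' ∈ Lt H z := by
  have key : ∀ S : Finset V, ∃ L : Finset V, ∑ c ∈ L, p c ≤ s ^ (-κ') ∧
      ((S.card : ℝ) ≤ s ^ κ → ∀ c c', p c ≠ 0 → p c' ≠ 0 → c ≠ c' → c + c' ∈ S →
        c ∈ L ∨ c' ∈ L) := by
    intro S
    by_cases hS : (S.card : ℝ) ≤ s ^ κ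
    · obtain ⟨L, hL1, hL2⟩ := h.spread (Submodule.span (ZMod 2) (S : Set V)) (by
        refine le_trans ?_ hS
        exact_mod_cast finrank_span_finset_le_card S)
      exact ⟨L, hL2, fun _ c c' hc hc' hne hcc =>
        hL1 c c' hc hc' hne (Submodule.subset_span hcc)⟩
    · refine ⟨∅, ?_, fun h => absurd h hS⟩
      rw [Finset.sum_empty]
      positivity
  choose f hf1 hf2 using key
  refine ⟨fun H z => f (GF Hᶜ z), fun H z z' hz => ?_, fun H z => hf1 _, ?_⟩
  · have : GF Hᶜ z = GF Hᶜ z' := by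
      apply h1
      intro i hi
      exact hz i (by simpa using hi)
    simp only [this]
  · intro H z c c' hc hc' hne hcc
    exact hf2 _ ((h2 _ _).trans hB) c c' hc hc' hne hcc

end Pool.Agent.XO
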