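import Mathlib
import Pool.Agent.Lib_helper94.XO.Defs
import Pool.Agent.Lib_helper94.XO.Pr
import Pool.Agent.Lib_helper94.XO.P2
import Pool.Agent.Lib_helper94.XO.Sel.SelDef
import Pool.Agent.Lib_helper94.XO.Sel.SelA
import Pool.Agent.Lib_helper94.XO.Sel.SelB
set_option autoImplicit false

/-! PART II, assembly: the core with fixed parameters. -/

namespace Pool.Agent.XO

open Finset Filter

variable {V : Type} [AddCommGroup V] [Fintype V] [DecidableEq V]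

/-- outside the bad events everything holds -/
theorem sel_of [Module (ZMod 2) V] {p : V → ℝ} (hp : IsLaw p)
    {σ : V → V → V × V} {n M₀ G Λ r : ℕ} {T Tc v w θ θ' δ : ℝ} (hMn : 4 * M₀ ≤ n)
    (hrn : r ≤ n) (hv : 0 < v) (hwc : w ≤ v * Real.exp (-Tc))
    {GF Lt : Finset (Fin n) → (Fin n → V) → Finset V}
    (hLt : ∀ H z c c', p c ≠ 0 → p c' ≠ 0 → c ≠ c' → c + c' ∈ GF Hᶜ z →
      c ∈ Lt H z ∨ c' ∈ Lt H z)
    {z : Fin n → V} {y : Fin (4 * M₀) → V}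
    (b1 : M₀ ≤ (univ.filter fun a => (KK p w θ z (y a)).card ≤ Λ).card)
    (b2 : ¬ ∃ g ≤ G, ∃ c, Reach σ y g c ∧ ¬ (Eff p v (∑ i, y i) c ∧ Function.Injective c))
    (b3 : ¬ ∃ j, BadJ p (4 * M₀) w v θ θ' z j)
    (b4 : Real.exp (-Tc) ≤ mum p n (∑ i, z i) y)
    (b5 : ¬ ∃ c : Fin (4 * M₀) → V, Eff p v (∑ i, y i) c ∧
      ∃ a, KK p w θ z (c a) ≠ KK p w θ' z (c a))
    (b6 : ¬ ∃ c : Fin (4 * M₀) → V, Eff p v (∑ i, y i) c ∧ ∃ a b, a ≠ b ∧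
      ∃ j, j ∉ Hub p T w θ δ z ∧ j ∈ KK p w θ z (c a) ∧ j ∈ KK p w θ z (c b))
    (b7 : ¬ r ≤ (Hub p T w θ δ z).card)
    (b8 : ¬ ∃ F : Finset (Fin n), F.Nonempty ∧
        ∃ g, (∀ j ∈ F, g ∈ Gj p (4 * M₀) w θ j z) ∧ g ∉ GF F z)
    (b9 : ¬ ∃ c : Fin (4 * M₀) → V, Eff p v (∑ i, y i) c ∧ ∃ a,
      (Hub p T w θ δ z).card ≤ r ∧ c a ∈ Lt (Hub p T w θ δ z) z) :
    Sel p σ Λ M₀ G v (KK p w θ z) (Hub p T w θ δ z) y := by
  have hdis : ∀ c : Fin (4 * M₀) → V, Eff p v (∑ i, y i) c → ∀ a b, a ≠ b →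
      ∀ j, j ∉ Hub p T w θ δ z → j ∈ KK p w θ z (c a) → j ∉ KK p w θ z (c b) := by
    intro c hc a b hab j hj h1 h2
    exact b6 ⟨c, hc, a, b, hab, j, hj, h1, h2⟩
  have hpos : ∀ c : Fin (4 * M₀) → V, Eff p v (∑ i, y i) c → ∀ a, p (c a) ≠ 0 := by
    intro c hc a h0
    have h1 := hc.2.2
    unfold pw at h1
    rw [Finset.prod_eq_zero (Finset.mem_univ a) h0] at h1
    exact lt_irrefl _ h1
  refine ⟨b1, ?_, ?_, ?_, ?_⟩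
  · intro g hg c hc
    by_contra h
    exact b2 ⟨g, hg, c, hc, h⟩
  · intro c c' hc hc'
    refine conserve (M := 4 * M₀) (w := w) (v := v) (θ := θ) (θ' := θ') (fun j hj => b3 ⟨j, hj⟩)
      ?_ ?_ c c' hc hc'
    · intro c hc a
      exact hwc.trans (mu_lower hp hMn hv (Real.exp_pos _) b4 hc a)
    · intro c hc a
      by_contra h
      exact b5 ⟨c, hc, a, h⟩
  · intro c hc a b hab
    rw [Finset.disjoint_left]
    intro j hj hj'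
    rw [Finset.mem_sdiff] at hj hj'
    exact hdis c hc a b hab j hj.2 hj.1 hj'.1
  · intro c c' hc hc' a a' hK
    by_contra hne
    have hM1 : 1 ≤ 4 * M₀ := by
      have := a.pos
      omega
    have h1 : ∀ j, j ∉ Hub p T w θ δ z → c a + c' a' ∈ Gj p (4 * M₀) w θ j z := by
      intro j hj
      exact unique_gs hM1 (hc.1.trans hc'.1.symm) (Hub p T w θ δ z) (hdis c hc) (hdis c' hc')
        hK j hj
    have hF : ((Hub p T w θ δ z)ᶜ).Nonempty := by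
      rw [← Finset.card_pos, Finset.card_compl, Fintype.card_fin]
      omega
    have h2 : c a + c' a' ∈ GF (Hub p T w θ δ z)ᶜ z := by
      by_contra h
      exact b8 ⟨_, hF, _, fun j hj => h1 j (by simpa using hj), h⟩
    have h3 : (Hub p T w θ δ z).card ≤ r := by omega
    rcases hLt _ z _ _ (hpos c hc a) (hpos c' hc' a') hne h2 with h4 | h4
    · exact b9 ⟨c, hc, a, h3, h4⟩
    · exact b9 ⟨c', hc', a', h3, h4⟩

/-- the core, all parameters fixed -/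
theorem sel_core [Module (ZMod 2) V] {p : V → ℝ} {s κ κ' : ℝ} (h : PWorld p s κ κ')
    (hs1 : 1 ≤ s) (hκ' : 0 < κ') {σ : V → V → V × V} {n M₀ G Λ r I : ℕ}
    {Ta Tb Tc Qa Qb v w δ' δ1 δ4 : ℝ} (θ : ℕ → ℝ) (hn : 2 ≤ n) (hMn : 4 * M₀ ≤ n)
    (hr : 1 ≤ r) (hrn : r ≤ n) (hv : 0 < v)
    (hch : pr (fun c : Fin (4 * M₀) → V => pw p c) (fun y => ∃ g ≤ G, ∃ c, Reach σ y g c ∧
        ¬ (Eff p v (∑ i, y i) c ∧ Function.Injective c)) ≤ 1 / 30)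
    (htA : pr (LB p n 1) (fun x => mu p n (∑ i, x.1 i) (x.2 0) < Real.exp (-Ta)) ≤ 1 / 8)
    (htB : pr (LB p n 1) (fun x => mu p n (∑ i, x.1 i) (x.2 0) < Real.exp (-Tb)) ≤ δ')
    (htC : pr (LB p n (4 * M₀)) (fun x => mum p n (∑ i, x.1 i) x.2 < Real.exp (-Tc)) ≤ 1 / 30)
    (hw0 : 0 < w) (hwa : w ≤ Real.exp (-Ta)) (hwb : w ≤ Real.exp (-Tb))
    (hwc : w ≤ v * Real.exp (-Tc)) (hθ : ∀ i, 0 < θ i) (hanti : Antitone θ)
    (hQa : n * (12 * Del p Ta n + 2 * Real.exp Ta * θ 0) ≤ Qa) (hΛ0 : 0 < Λ) (hΛ : 8 * Qa ≤ Λ)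
    (hQb : n * (12 * Del p Tb n + 2 * Real.exp Tb * θ 0) ≤ Qb) (hI : 1 ≤ I)
    (hδ1 : 0 < δ1) (hδ4 : 0 < δ4)
    (b3 : ∀ i < I, n * ((1 / (w * θ i)) ^ (4 * M₀) * (((4 * M₀ : ℕ) : ℝ) / v) * θ (i + 1)) ≤ 1 / 30)
    (b5 : (1 / v) * (((4 * M₀ : ℕ) : ℝ) * (Qb / I + δ')) ≤ 1 / 30)
    (b6 : (1 / v) * ((((4 * M₀ : ℕ) : ℝ)) ^ 2 * (2 * δ' + δ1 * Qb + 2 * √(Del p Tb n))) ≤ 1 / 30)
    (b7 : Qb / (δ1 * r) ≤ 1 / 30)
    (b8 : ∀ i < I, 2 ^ n * (n / Gam (4 * M₀) w (θ i)) ≤ 1 / 30)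
    (b9 : (1 / v) * (((4 * M₀ : ℕ) : ℝ) *
      (δ4 + 2 ^ n * s ^ r * 2 ^ n * (s ^ (-κ')) ^ (δ4 * n))) ≤ 1 / 30)
    (hdim : ∀ i < I, Gam (4 * M₀) w (θ i) ^ (2 * n + 1) ≤ s ^ κ) :
    ∃ (K : V → Finset (Fin n)) (Hb : Finset (Fin n)) (y : Fin (4 * M₀) → V),
      Sel p σ Λ M₀ G v K Hb y := by
  have hp := h.law
  have hn1 : 1 ≤ n := by omega
  have hl := lb_law hp hMn
  obtain ⟨i, hiI, hst⟩ := stable hp hn hw0 hwb θ hθ hanti hQb hI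
  have hθ0 : θ i ≤ θ 0 := hanti (Nat.zero_le i)
  have hn0 : (0 : ℝ) ≤ n := Nat.cast_nonneg _
  have hQa' : n * (12 * Del p Ta n + 2 * Real.exp Ta * θ i) ≤ Qa := by
    refine le_trans (mul_le_mul_of_nonneg_left ?_ hn0) hQa
    have := mul_le_mul_of_nonneg_left hθ0 (show 0 ≤ 2 * Real.exp Ta by positivity)
    linarith
  have hQb' : n * (12 * Del p Tb n + 2 * Real.exp Tb * θ i) ≤ Qb := by
    refine le_trans (mul_le_mul_of_nonneg_left ?_ hn0) hQb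
    have := mul_le_mul_of_nonneg_left hθ0 (show 0 ≤ 2 * Real.exp Tb by positivity)
    linarith
  obtain ⟨GF, hG1, hG2, hG3⟩ := pop_all hp hn1 (4 * M₀) hw0 (hθ i)
  obtain ⟨Lt, hL1, hL2, hL3⟩ := light_ex h (by linarith) (hdim i hiI) GF hG1 hG2
  have hδ' : 0 ≤ δ' := (pr_nonneg (lb_law hp hn1).nonneg _).trans htB
  have hdel := del_nonneg hp Tb n
  have hQb0 : 0 ≤ Qb := by
    refine le_trans ?_ hQb'
    have := hθ i
    positivity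
  -- the bad events
  have e1 : pr (LB p n (4 * M₀)) (fun x => ¬ M₀ ≤ (univ.filter fun a =>
      (KK p w (θ i) x.1 (x.2 a)).card ≤ Λ).card) ≤ 1 / 3 := by
    refine count_pr hl (fun a x => (KK p w (θ i) x.1 (x.2 a)).card ≤ Λ) fun a => ?_
    rw [lb_coord hp hMn a (fun z c => ¬ (KK p w (θ i) z c).card ≤ Λ)]
    exact ok_pr hp hn (hθ i) hw0 hwa hQa' hΛ0 hΛ htA
  have e2 : pr (LB p n (4 * M₀)) (fun x => ∃ g ≤ G, ∃ c, Reach σ x.2 g c ∧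
        ¬ (Eff p v (∑ i, x.2 i) c ∧ Function.Injective c)) ≤ 1 / 30 := by
    rw [lb_snd hp hMn (fun y => ∃ g ≤ G, ∃ c, Reach σ y g c ∧
        ¬ (Eff p v (∑ i, y i) c ∧ Function.Injective c))]
    exact hch
  have e3 : pr (LB p n (4 * M₀)) (fun x => ∃ j, BadJ p (4 * M₀) w v (θ i) (θ (i + 1)) x.1 j) ≤
      1 / 30 := by
    rw [lb_fst_pr hp hMn (fun z => ∃ j, BadJ p (4 * M₀) w v (θ i) (θ (i + 1)) z j)]
    refine (pr_exists_le (pw_law hp n).nonneg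
      (fun j z => BadJ p (4 * M₀) w v (θ i) (θ (i + 1)) z j)).trans ?_
    refine le_trans (Finset.sum_le_sum fun j _ =>
      badj_pr hp hn1 hw0 hv (hθ i) (hθ (i + 1)) j) ?_
    rw [Finset.sum_const, Finset.card_univ, Fintype.card_fin, nsmul_eq_mul]
    exact b3 i hiI
  have e5 : pr (LB p n (4 * M₀)) (fun x => ∃ c : Fin (4 * M₀) → V, Eff p v (∑ i, x.2 i) c ∧
      ∃ a, KK p w (θ i) x.1 (c a) ≠ KK p w (θ (i + 1)) x.1 (c a)) ≤ 1 / 30 := by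
    refine (eff_entry hp hMn hv (fun z c => KK p w (θ i) z c ≠ KK p w (θ (i + 1)) z c)
      (stab_one hp hn1 hst htB)).trans b5
  have e6 : pr (LB p n (4 * M₀)) (fun x => ∃ c : Fin (4 * M₀) → V, Eff p v (∑ i, x.2 i) c ∧
      ∃ a b, a ≠ b ∧ ∃ j, j ∉ Hub p Tb w (θ i) δ1 x.1 ∧ j ∈ KK p w (θ i) x.1 (c a) ∧
        j ∈ KK p w (θ i) x.1 (c b)) ≤ 1 / 30 := by
    refine (eff_pair hp hMn hv ?_ (fun z c d => ∃ j, j ∉ Hub p Tb w (θ i) δ1 z ∧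
      j ∈ KK p w (θ i) z c ∧ j ∈ KK p w (θ i) z d)
      (disj_two hp hn (hθ i) hw0 hwb hδ1 hQb' htB)).trans b6
    positivity
  have e7 : pr (LB p n (4 * M₀)) (fun x => r ≤ (Hub p Tb w (θ i) δ1 x.1).card) ≤ 1 / 30 := by
    rw [lb_fst_pr hp hMn (fun z => r ≤ (Hub p Tb w (θ i) δ1 z).card)]
    exact (hub_pr hp hn (hθ i) hw0 hwb hδ1 hQb' hr).trans b7
  have e8 : pr (LB p n (4 * M₀)) (fun x => ∃ F : Finset (Fin n), F.Nonempty ∧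
        ∃ g, (∀ j ∈ F, g ∈ Gj p (4 * M₀) w (θ i) j x.1) ∧ g ∉ GF F x.1) ≤ 1 / 30 := by
    rw [lb_fst_pr hp hMn (fun z => ∃ F : Finset (Fin n), F.Nonempty ∧
        ∃ g, (∀ j ∈ F, g ∈ Gj p (4 * M₀) w (θ i) j z) ∧ g ∉ GF F z)]
    exact hG3.trans (b8 i hiI)
  have e9 : pr (LB p n (4 * M₀)) (fun x => ∃ c : Fin (4 * M₀) → V, Eff p v (∑ i, x.2 i) c ∧
      ∃ a, (Hub p Tb w (θ i) δ1 x.1).card ≤ r ∧ c a ∈ Lt (Hub p Tb w (θ i) δ1 x.1) x.1) ≤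
      1 / 30 := by
    refine (eff_entry hp hMn hv (fun z c => (Hub p Tb w (θ i) δ1 z).card ≤ r ∧
      c ∈ Lt (Hub p Tb w (θ i) δ1 z) z) ?_).trans b9
    exact light_pr hp h.card hs1 (by positivity)
      (Real.rpow_le_one_of_one_le_of_nonpos hs1 (by linarith)) hn1
      (fun z => Hub p Tb w (θ i) δ1 z) Lt hL1 hL2 hδ4
  -- union
  obtain ⟨x, -, hx⟩ := exists_of_pr_lt_one hl
    (A := fun x => (¬ M₀ ≤ (univ.filter fun a => (KK p w (θ i) x.1 (x.2 a)).card ≤ Λ).card) ∨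
      (∃ g ≤ G, ∃ c, Reach σ x.2 g c ∧
        ¬ (Eff p v (∑ i, x.2 i) c ∧ Function.Injective c)) ∨
      (∃ j, BadJ p (4 * M₀) w v (θ i) (θ (i + 1)) x.1 j) ∨
      (mum p n (∑ i, x.1 i) x.2 < Real.exp (-Tc)) ∨
      (∃ c : Fin (4 * M₀) → V, Eff p v (∑ i, x.2 i) c ∧
        ∃ a, KK p w (θ i) x.1 (c a) ≠ KK p w (θ (i + 1)) x.1 (c a)) ∨
      (∃ c : Fin (4 * M₀) → V, Eff p v (∑ i, x.2 i) c ∧
        ∃ a b, a ≠ b ∧ ∃ j, j ∉ Hub p Tb w (θ i) δ1 x.1 ∧ j ∈ KK p w (θ i) x.1 (c a) ∧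
        j ∈ KK p w (θ i) x.1 (c b)) ∨
      (r ≤ (Hub p Tb w (θ i) δ1 x.1).card) ∨
      (∃ F : Finset (Fin n), F.Nonempty ∧
        ∃ g, (∀ j ∈ F, g ∈ Gj p (4 * M₀) w (θ i) j x.1) ∧ g ∉ GF F x.1) ∨
      (∃ c : Fin (4 * M₀) → V, Eff p v (∑ i, x.2 i) c ∧
        ∃ a, (Hub p Tb w (θ i) δ1 x.1).card ≤ r ∧ c a ∈ Lt (Hub p Tb w (θ i) δ1 x.1) x.1)) (by
    have q := fun A B => pr_or_le (P := LB p n (4 * M₀)) hl.nonneg A B
    refine lt_of_le_of_lt ((q _ _).trans (add_le_add e1 ((q _ _).trans (add_le_add e2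
      ((q _ _).trans (add_le_add e3 ((q _ _).trans (add_le_add htC ((q _ _).trans (add_le_add e5
      ((q _ _).trans (add_le_add e6 ((q _ _).trans (add_le_add e7 ((q _ _).trans (add_le_add e8
        e9)))))))))))))))) ?_
    norm_num)
  simp only [not_or] at hx
  obtain ⟨x1, x2, x3, x4, x5, x6, x7, x8, x9⟩ := hx
  exact ⟨_, _, x.2, sel_of hp hMn hrn hv hwc hL3 (not_not.1 x1) x2 x3 (not_lt.1 x4) x5 x6 x7
    x8 x9⟩

end Pool.Agent.XO
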