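import Mathlib
import Pool.Agent.Lib_helper94.XO.Defs
import Pool.Agent.Lib_helper94.XO.Pr
import Pool.Agent.Lib_helper94.XO.P2
import Pool.Agent.Lib_helper94.XO.Sel.SelDef
import Pool.Agent.Lib_helper94.XO.Sel.SelA
import Pool.Agent.Lib_helper94.XO.Sel.SelB
import Pool.Agent.Lib_helper94.XO.Sel.SelC
set_option autoImplicit false

/-! PART II, assembly: numerical lemmas. -/

namespace Pool.Agent.XO

open Finset Filter

theorem num3 {n N2 M : ℕ} {w v θ θ' θ0 : ℝ} (hn : n ≤ N2) (hw : 0 < w) (hv : 0 < v)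
    (hθ : 0 < θ) (hθ1 : θ ≤ 1) (hθ0 : θ ≤ θ0) (hθ' : θ' = θ ^ (M + 2))
    (hK : (N2 : ℝ) * ((1 / w) ^ M * ((M : ℝ) / v)) * θ0 ≤ 1 / 30) :
    n * ((1 / (w * θ)) ^ M * ((M : ℝ) / v) * θ') ≤ 1 / 30 := by
  refine le_trans ?_ hK
  have h1 : (1 / (w * θ)) ^ M * ((M : ℝ) / v) * θ' = (1 / w) ^ M * ((M : ℝ) / v) * θ ^ 2 := by
    rw [hθ', pow_add, one_div, one_div, mul_inv, mul_pow, inv_pow θ]
    have : θ ^ M ≠ 0 := by positivity
    field_simp
  rw [h1]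
  have h2 : θ ^ 2 ≤ θ0 := by nlinarith
  have h3 : (n : ℝ) ≤ N2 := by exact_mod_cast hn
  have h4 : 0 ≤ (1 / w) ^ M * ((M : ℝ) / v) := by positivity
  calc (n : ℝ) * ((1 / w) ^ M * ((M : ℝ) / v) * θ ^ 2) ≤
        N2 * ((1 / w) ^ M * ((M : ℝ) / v) * θ0) := by
        apply mul_le_mul h3 (mul_le_mul_of_nonneg_left h2 h4) (by positivity) (by positivity)
    _ = _ := by ring

theorem num8 {n N2 M : ℕ} {w θ θ0 : ℝ} (hn : n ≤ N2) (hw : 0 < w)
    (hθ : 0 < θ) (hθ0 : θ ≤ θ0) (hK : (2 : ℝ) ^ N2 * (N2 * w) * θ0 ≤ 1 / 30) :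
    2 ^ n * (n / Gam M w θ) ≤ 1 / 30 := by
  refine le_trans ?_ hK
  have h0 : 0 < 1 / (w * θ) := by positivity
  have h1 : 1 / (w * θ) ≤ Gam M w θ := by
    unfold Gam
    calc 1 / (w * θ) ≤ (1 / (w * θ) + 1) ^ 1 := by rw [pow_one]; linarith
      _ ≤ (1 / (w * θ) + 1) ^ (2 * M + 1) := pow_le_pow_right₀ (by linarith) (by omega)
  have h2 : (n : ℝ) / Gam M w θ ≤ N2 * w * θ0 := by
    have h3 : (n : ℝ) ≤ N2 := by exact_mod_cast hn
    calc (n : ℝ) / Gam M w θ ≤ N2 / (1 / (w * θ)) :=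
          div_le_div₀ (by positivity) h3 h0 h1
      _ = N2 * w * θ := by field_simp
      _ ≤ N2 * w * θ0 := mul_le_mul_of_nonneg_left hθ0 (by positivity)
  have h4 : (2 : ℝ) ^ n ≤ 2 ^ N2 := pow_le_pow_right₀ (by norm_num) hn
  have h5 : 0 ≤ (N2 : ℝ) * w * θ0 := le_trans (by
    have : 0 < Gam M w θ := lt_of_lt_of_le h0 h1
    positivity) h2
  calc (2 : ℝ) ^ n * (n / Gam M w θ) ≤ 2 ^ N2 * (N2 * w * θ0) :=
        mul_le_mul h4 h2 (by
          have : 0 < Gam M w θ := lt_of_lt_of_le h0 h1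
          positivity) (by positivity)
    _ = _ := by ring

theorem numdim {n N2 M E : ℕ} {w θ θI s κ : ℝ} (hn : n ≤ N2) (hw : 0 < w) (hw1 : w ≤ 1)
    (hθ : 0 < θ) (hθ1 : θ ≤ 1) (hθI : θI ≤ θ) (hs : 0 < s) (hI : 0 < θI)
    (hE : E = (2 * M + 1) * (2 * N2 + 1)) (hθE : (1 / θI) ^ E ≤ s ^ (κ / 2))
    (hK : (2 / w) ^ E ≤ s ^ (κ / 2)) : Gam M w θ ^ (2 * n + 1) ≤ s ^ κ := by
  have h0 : 0 < w * θ := by positivity
  have h1 : 1 ≤ 1 / (w * θ) := by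
    rw [le_div_iff₀ h0]
    nlinarith
  have h2 : 1 / (w * θ) + 1 ≤ (2 / w) * (1 / θI) := by
    have h3 : 1 / (w * θ) ≤ (1 / w) * (1 / θI) := by
      rw [one_div_mul_one_div]
      apply one_div_le_one_div_of_le (by positivity)
      exact mul_le_mul_of_nonneg_left hθI hw.le
    have h4 : (2 / w) * (1 / θI) = 2 * ((1 / w) * (1 / θI)) := by ring
    rw [h4]
    linarith
  have h5 : 1 ≤ (2 / w) * (1 / θI) := by linarith
  unfold Gam
  rw [← pow_mul]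
  calc (1 / (w * θ) + 1) ^ ((2 * M + 1) * (2 * n + 1)) ≤
        ((2 / w) * (1 / θI)) ^ ((2 * M + 1) * (2 * n + 1)) :=
        pow_le_pow_left₀ (by linarith) h2 _
    _ ≤ ((2 / w) * (1 / θI)) ^ E := by
        apply pow_le_pow_right₀ h5
        rw [hE]
        exact Nat.mul_le_mul_left _ (by omega)
    _ = (2 / w) ^ E * (1 / θI) ^ E := mul_pow _ _ _
    _ ≤ s ^ (κ / 2) * s ^ (κ / 2) := mul_le_mul hK hθE (by positivity) (by positivity)
    _ = s ^ κ := by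
        rw [← Real.rpow_add hs]
        congr 1
        ring

theorem numq {n N2 : ℕ} {C T D θ0 : ℝ} (hn1 : 1 ≤ n) (hn : n ≤ N2) (hθ : 0 ≤ θ0)
    (hD : D ≤ 16 * C / n) (hK : (N2 : ℝ) * (2 * Real.exp T) * θ0 ≤ 1) :
    n * (12 * D + 2 * Real.exp T * θ0) ≤ 192 * C + 1 := by
  have h0 : (0 : ℝ) < n := by exact_mod_cast hn1
  rw [le_div_iff₀ h0] at hD
  have h3 : (n : ℝ) ≤ N2 := by exact_mod_cast hn
  have h4 : (n : ℝ) * (2 * Real.exp T * θ0) ≤ N2 * (2 * Real.exp T * θ0) :=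
    mul_le_mul_of_nonneg_right h3 (by positivity)
  nlinarith

theorem num9 {n N2 M r : ℕ} {v B κ' δ4 s : ℝ} (hv : 0 < v) (hB : B = ((M : ℝ) + 1) ^ 2 / v)
    (hn : n ≤ N2) (hs : 1 ≤ s) (hδ4 : δ4 = 1 / (300 * B)) (hr : (r : ℝ) + 1 ≤ κ' * δ4 * n)
    (hK : (4 : ℝ) ^ N2 * s⁻¹ ≤ 1 / (300 * B)) :
    (1 / v) * ((M : ℝ) * (δ4 + 2 ^ n * s ^ r * 2 ^ n * (s ^ (-κ')) ^ (δ4 * n))) ≤ 1 / 30 := by
  have hB0 : 0 < B := by rw [hB]; positivity
  have hs0 : 0 < s := by linarith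
  have h1 : (s ^ (-κ')) ^ (δ4 * n) ≤ s ^ (-((r : ℝ) + 1)) := by
    rw [← Real.rpow_mul hs0.le]
    apply Real.rpow_le_rpow_of_exponent_le hs
    linarith
  have h2 : s ^ r * s ^ (-((r : ℝ) + 1)) = s⁻¹ := by
    rw [← Real.rpow_natCast, ← Real.rpow_add hs0, ← Real.rpow_neg_one]
    congr 1
    ring
  have h3 : (2 : ℝ) ^ n * s ^ r * 2 ^ n * (s ^ (-κ')) ^ (δ4 * n) ≤ 4 ^ N2 * s⁻¹ := by
    calc (2 : ℝ) ^ n * s ^ r * 2 ^ n * (s ^ (-κ')) ^ (δ4 * n) ≤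
          (2 : ℝ) ^ n * s ^ r * 2 ^ n * s ^ (-((r : ℝ) + 1)) :=
          mul_le_mul_of_nonneg_left h1 (by positivity)
      _ = (2 ^ n * 2 ^ n) * (s ^ r * s ^ (-((r : ℝ) + 1))) := by ring
      _ = 4 ^ n * s⁻¹ := by
          rw [h2, ← mul_pow]
          norm_num
      _ ≤ 4 ^ N2 * s⁻¹ := by
          apply mul_le_mul_of_nonneg_right _ (by positivity)
          exact pow_le_pow_right₀ (by norm_num) hn
  have h4 : δ4 + 2 ^ n * s ^ r * 2 ^ n * (s ^ (-κ')) ^ (δ4 * n) ≤ 2 / (300 * B) := by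
    have : 2 / (300 * B) = 1 / (300 * B) + 1 / (300 * B) := by ring
    rw [this, ← hδ4]
    rw [← hδ4] at hK
    linarith
  have hM : (M : ℝ) ≤ (M + 1) ^ 2 := by
    have : (0 : ℝ) ≤ M := Nat.cast_nonneg _
    nlinarith
  calc (1 / v) * ((M : ℝ) * (δ4 + 2 ^ n * s ^ r * 2 ^ n * (s ^ (-κ')) ^ (δ4 * n))) ≤
        (1 / v) * ((M + 1) ^ 2 * (2 / (300 * B))) := by
        apply mul_le_mul_of_nonneg_left _ (by positivity)
        apply mul_le_mul hM h4 _ (by positivity)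
        have : 0 ≤ δ4 := by rw [hδ4]; positivity
        positivity
    _ = B * (2 / (300 * B)) := by rw [hB]; ring
    _ ≤ 1 / 30 := by
        have : B * (2 / (300 * B)) = 2 / 300 := by field_simp
        rw [this]
        norm_num

theorem num5 {M I : ℕ} {v B Qb δ' : ℝ} (hv : 0 < v) (hB : B = ((M : ℝ) + 1) ^ 2 / v)
    (hδ' : δ' = 1 / (300 * B)) (hQ : 0 < Qb) (hI1 : 1 ≤ I) (hI : 300 * B * Qb ≤ I) :
    (1 / v) * ((M : ℝ) * (Qb / I + δ')) ≤ 1 / 30 := by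
  have hB0 : 0 < B := by rw [hB]; positivity
  have hI0 : (0 : ℝ) < I := by exact_mod_cast hI1
  have h1 : Qb / I ≤ 1 / (300 * B) := by
    rw [div_le_div_iff₀ hI0 (by positivity)]
    linarith
  have h4 : Qb / I + δ' ≤ 2 / (300 * B) := by
    have : 2 / (300 * B) = 1 / (300 * B) + 1 / (300 * B) := by ring
    rw [this, ← hδ']
    rw [← hδ'] at h1
    linarith
  have hM : (M : ℝ) ≤ (M + 1) ^ 2 := by
    have : (0 : ℝ) ≤ M := Nat.cast_nonneg _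
    nlinarith
  calc (1 / v) * ((M : ℝ) * (Qb / I + δ')) ≤ (1 / v) * ((M + 1) ^ 2 * (2 / (300 * B))) := by
        apply mul_le_mul_of_nonneg_left _ (by positivity)
        apply mul_le_mul hM h4 _ (by positivity)
        have : 0 ≤ δ' := by rw [hδ']; positivity
        positivity
    _ = B * (2 / (300 * B)) := by rw [hB]; ring
    _ ≤ 1 / 30 := by
        have : B * (2 / (300 * B)) = 2 / 300 := by field_simp
        rw [this]
        norm_num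

theorem num6 {M : ℕ} {v B Qb δ' δ1 D : ℝ} (hv : 0 < v) (hB : B = ((M : ℝ) + 1) ^ 2 / v)
    (hδ' : δ' = 1 / (300 * B)) (hQ : 0 < Qb) (hδ1 : δ1 = 1 / (300 * B * Qb))
    (hD : 2 * √D ≤ 1 / (300 * B)) :
    (1 / v) * ((M : ℝ) ^ 2 * (2 * δ' + δ1 * Qb + 2 * √D)) ≤ 1 / 30 := by
  have hB0 : 0 < B := by rw [hB]; positivity
  have h1 : δ1 * Qb = 1 / (300 * B) := by
    rw [hδ1]
    field_simp
  have h4 : 2 * δ' + δ1 * Qb + 2 * √D ≤ 4 / (300 * B) := by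
    have : 4 / (300 * B) = 4 * (1 / (300 * B)) := by ring
    rw [this, h1, hδ']
    linarith
  have hM : (M : ℝ) ^ 2 ≤ (M + 1) ^ 2 := by
    have : (0 : ℝ) ≤ M := Nat.cast_nonneg _
    nlinarith
  calc (1 / v) * ((M : ℝ) ^ 2 * (2 * δ' + δ1 * Qb + 2 * √D)) ≤
        (1 / v) * ((M + 1) ^ 2 * (4 / (300 * B))) := by
        apply mul_le_mul_of_nonneg_left _ (by positivity)
        apply mul_le_mul hM h4 _ (by positivity)
        rw [hδ', h1]
        positivity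
    _ = B * (4 / (300 * B)) := by rw [hB]; ring
    _ ≤ 1 / 30 := by
        have : B * (4 / (300 * B)) = 4 / 300 := by field_simp
        rw [this]
        norm_num

theorem ev_small {a η K : ℝ} (ha : 0 < a) (hη : 0 < η) :
    ∀ᶠ s : ℝ in atTop, K * s ^ (-a) ≤ η := by
  have h := (tendsto_rpow_neg_atTop ha).const_mul K
  rw [mul_zero] at h
  exact h.eventually_le_const hη

theorem tight_lb {V : Type} [AddCommGroup V] [Fintype V] [DecidableEq V] {p : V → ℝ}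
    (hp : IsLaw p) {n m : ℕ} (hmn : m ≤ n) {C δ T : ℝ}
    (hT : C * (1 + Real.log n) ≤ T)
    (h : pr (fun c : Fin n → V => pw p c) (fun c => mum p n (∑ i, c i)
        (fun i : Fin m => c (Fin.castLE hmn i)) < Real.exp (-(C * (1 + Real.log n)))) ≤ δ) :
    pr (LB p n m) (fun x => mum p n (∑ i, x.1 i) x.2 < Real.exp (-T)) ≤ δ := by
  rw [lb_swap hp hmn (fun Z y => mum p n Z y < Real.exp (-T))]
  refine le_trans (pr_mono (pw_law hp n).nonneg fun c _ hc => ?_) h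
  refine lt_of_lt_of_le hc ?_
  apply Real.exp_le_exp.2
  linarith

theorem tight_lb_one {V : Type} [AddCommGroup V] [Fintype V] [DecidableEq V] {p : V → ℝ}
    (hp : IsLaw p) {n : ℕ} (hmn : 1 ≤ n) {C δ T : ℝ}
    (hT : C * (1 + Real.log n) ≤ T)
    (h : pr (fun c : Fin n → V => pw p c) (fun c => mum p n (∑ i, c i)
        (fun i : Fin 1 => c (Fin.castLE hmn i)) < Real.exp (-(C * (1 + Real.log n)))) ≤ δ) :
    pr (LB p n 1) (fun x => mu p n (∑ i, x.1 i) (x.2 0) < Real.exp (-T)) ≤ δ := by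
  have h1 := tight_lb hp hmn hT h
  simp only [mum_one] at h1
  exact h1

end Pool.Agent.XO
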