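import Mathlib
import Pool.Agent.Lib_helper94.XO.Defs
import Pool.Agent.Lib_helper94.XO.Pr
import Pool.Agent.Lib_helper94.XO.P2
import Pool.Agent.Lib_helper94.XO.Sel.SelDef
import Pool.Agent.Lib_helper94.XO.Sel.SelA
import Pool.Agent.Lib_helper94.XO.Sel.SelB
import Pool.Agent.Lib_helper94.XO.Sel.SelC
import Pool.Agent.Lib_helper94.XO.Sel.SelN
set_option autoImplicit false

/-! PART II, assembly: the probabilistic half. -/

namespace Pool.Agent.XO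

open Finset Filter

/-- the probabilistic half of PART II -/
theorem select (κ κ' κ2 : ℝ) (hκ : 0 < κ) (hκ' : 0 < κ') (hκ2 : 0 < κ2) :
    ∃ Λ : ℕ, ∀ M₀ G : ℕ, ∀ᶠ s : ℝ in atTop, ∀ (V : Type) [AddCommGroup V] [Module (ZMod 2) V]
      [Fintype V] [DecidableEq V] (p e : V → ℝ), World p e s κ κ' κ2 → ∀ σ, IsGate p e σ →
      ∃ (n : ℕ) (v : ℝ) (K : V → Finset (Fin n)) (Hb : Finset (Fin n)) (y : Fin (4 * M₀) → V),
        Sel p σ Λ M₀ G v K Hb y := by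
  obtain ⟨Ca, hCa0, hCa⟩ := tight_in κ κ' (1 / 8) hκ hκ' (by norm_num) 1
  obtain ⟨Λ, hΛ⟩ := exists_nat_ge (8 * (192 * Ca + 1))
  refine ⟨Λ, fun M₀ G => ?_⟩
  have hΛ0 : 0 < Λ := by
    have : (0 : ℝ) < Λ := lt_of_lt_of_le (by positivity) hΛ
    exact_mod_cast this
  obtain ⟨M, hM⟩ : ∃ M : ℕ, M = 4 * M₀ := ⟨_, rfl⟩
  obtain ⟨v, hv0, hv1, hch⟩ := chain κ κ' κ2 (1 / 30) hκ hκ' hκ2 (by norm_num) M G
  obtain ⟨B, hB⟩ : ∃ B : ℝ, B = ((M : ℝ) + 1) ^ 2 / v := ⟨_, rfl⟩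
  have hB0 : 0 < B := by rw [hB]; positivity
  obtain ⟨δ', hδ'⟩ : ∃ δ' : ℝ, δ' = 1 / (300 * B) := ⟨_, rfl⟩
  have hδ'0 : 0 < δ' := by rw [hδ']; positivity
  obtain ⟨Cb, hCb0, hCb⟩ := tight_in κ κ' δ' hκ hκ' hδ'0 1
  obtain ⟨Cc, hCc0, hCc⟩ := tight_in κ κ' (1 / 30) hκ hκ' (by norm_num) M
  obtain ⟨Qb, hQb⟩ : ∃ Qb : ℝ, Qb = 192 * Cb + 1 := ⟨_, rfl⟩
  have hQb0 : 0 < Qb := by rw [hQb]; positivity
  obtain ⟨I, hI⟩ := exists_nat_ge (300 * B * Qb + 1)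
  have hI1 : 1 ≤ I := by
    have : (1 : ℝ) ≤ I := le_trans (by linarith [mul_pos (mul_pos (show (0:ℝ) < 300 by norm_num) hB0) hQb0]) hI
    exact_mod_cast this
  obtain ⟨δ1, hδ1⟩ : ∃ δ1 : ℝ, δ1 = 1 / (300 * B * Qb) := ⟨_, rfl⟩
  have hδ1p : 0 < δ1 := by rw [hδ1]; positivity
  obtain ⟨r, hr⟩ := exists_nat_ge (30 * Qb / δ1 + 1)
  have hr1 : 1 ≤ r := by
    have : (1 : ℝ) ≤ r := le_trans (by linarith [div_pos (mul_pos (show (0:ℝ) < 30 by norm_num) hQb0) hδ1p]) hr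
    exact_mod_cast this
  obtain ⟨N, hN⟩ := exists_nat_ge (8 + (M : ℝ) + r + ((r : ℝ) + 1) / (κ' * δ') +
    16 * Cb * (600 * B) ^ 2)
  have hx1 : 0 ≤ ((r : ℝ) + 1) / (κ' * δ') := by positivity
  have hx2 : 0 ≤ 16 * Cb * (600 * B) ^ 2 := by positivity
  have hN8 : 8 ≤ N := by
    have : (8 : ℝ) ≤ N := by
      have := Nat.cast_nonneg (α := ℝ) M
      have := Nat.cast_nonneg (α := ℝ) r
      linarith
    exact_mod_cast this
  have hNM : M ≤ N := by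
    have : (M : ℝ) ≤ N := by
      have := Nat.cast_nonneg (α := ℝ) r
      linarith
    exact_mod_cast this
  have hNr : r ≤ N := by
    have : (r : ℝ) ≤ N := by
      have := Nat.cast_nonneg (α := ℝ) M
      linarith
    exact_mod_cast this
  have hNr2 : (r : ℝ) + 1 ≤ κ' * δ' * N := by
    have h1 : ((r : ℝ) + 1) / (κ' * δ') ≤ N := by
      have := Nat.cast_nonneg (α := ℝ) M
      have := Nat.cast_nonneg (α := ℝ) r
      linarith
    rw [div_le_iff₀ (by positivity)] at h1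
    linarith
  have hND : 16 * Cb * (600 * B) ^ 2 ≤ N := by
    have := Nat.cast_nonneg (α := ℝ) M
    have := Nat.cast_nonneg (α := ℝ) r
    linarith
  -- scales
  obtain ⟨Ta, hTa⟩ : ∃ Ta : ℝ, Ta = Ca * (1 + Real.log ((N : ℝ) ^ 2)) := ⟨_, rfl⟩
  obtain ⟨Tb, hTb⟩ : ∃ Tb : ℝ, Tb = Cb * (1 + Real.log ((N : ℝ) ^ 2)) := ⟨_, rfl⟩
  obtain ⟨Tc, hTc⟩ : ∃ Tc : ℝ, Tc = Cc * (1 + Real.log ((N : ℝ) ^ 2)) := ⟨_, rfl⟩
  have hN1 : (1 : ℝ) ≤ N := by exact_mod_cast (by omega : 1 ≤ N)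
  have hlog : 0 ≤ Real.log ((N : ℝ) ^ 2) := Real.log_nonneg (by nlinarith)
  have hTa0 : 0 ≤ Ta := by rw [hTa]; positivity
  have hTb0 : 0 ≤ Tb := by rw [hTb]; positivity
  have hTc0 : 0 ≤ Tc := by rw [hTc]; positivity
  obtain ⟨w, hw⟩ : ∃ w : ℝ, w = v * Real.exp (-(Ta + Tb + Tc)) := ⟨_, rfl⟩
  have hw0 : 0 < w := by rw [hw]; positivity
  have hwx : ∀ T, T ≤ Ta + Tb + Tc → w ≤ v * Real.exp (-T) := by
    intro T hT
    rw [hw]
    apply mul_le_mul_of_nonneg_left _ hv0.le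
    apply Real.exp_le_exp.2
    linarith
  have hwy : ∀ T, T ≤ Ta + Tb + Tc → w ≤ Real.exp (-T) := by
    intro T hT
    refine (hwx T hT).trans ?_
    have := Real.exp_pos (-T)
    nlinarith
  have hw1 : w ≤ 1 := by
    have := hwy 0 (by linarith)
    simpa using this
  obtain ⟨N2, hN2⟩ : ∃ N2 : ℕ, N2 = N ^ 2 := ⟨_, rfl⟩
  obtain ⟨E, hE⟩ : ∃ E : ℕ, E = (2 * M + 1) * (2 * N2 + 1) := ⟨_, rfl⟩
  have hE0 : (0 : ℝ) < E := by
    have : 0 < E := by rw [hE]; positivity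
    exact_mod_cast this
  obtain ⟨kp, hkp⟩ : ∃ kp : ℝ, kp = κ / (2 * ((M : ℝ) + 2) ^ I * E) := ⟨_, rfl⟩
  have hkp0 : 0 < kp := by rw [hkp]; positivity
  -- the eventual facts
  have tev : ∀ (m : ℕ) (δ C : ℝ), (∀ n : ℕ, 1 ≤ n → ∀ hmn : m ≤ n, ∀ᶠ s : ℝ in atTop,
      ∀ (V : Type) [AddCommGroup V] [Module (ZMod 2) V] [Fintype V] [DecidableEq V] (p : V → ℝ),
      PWorld p s κ κ' →
      pr (fun c : Fin n → V => pw p c) (fun c => mum p n (∑ i, c i)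
        (fun i : Fin m => c (Fin.castLE hmn i)) < Real.exp (-(C * (1 + Real.log n)))) ≤ δ) →
      ∀ᶠ s : ℝ in atTop, ∀ n ∈ Finset.Icc N (N ^ 2), 1 ≤ n → ∀ hmn : m ≤ n,
      ∀ (V : Type) [AddCommGroup V] [Module (ZMod 2) V] [Fintype V] [DecidableEq V] (p : V → ℝ),
      PWorld p s κ κ' →
      pr (fun c : Fin n → V => pw p c) (fun c => mum p n (∑ i, c i)
        (fun i : Fin m => c (Fin.castLE hmn i)) < Real.exp (-(C * (1 + Real.log n)))) ≤ δ := by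
    intro m δ C h
    rw [Filter.eventually_all_finset]
    intro n _
    by_cases hn : 1 ≤ n
    · by_cases hmn : m ≤ n
      · filter_upwards [h n hn hmn] with s hs _ _
        exact hs
      · exact Filter.Eventually.of_forall fun s _ h' => absurd h' hmn
    · exact Filter.Eventually.of_forall fun s h' => absurd h' hn
  filter_upwards [hch, tev 1 _ _ hCa, tev 1 _ _ hCb, tev M _ _ hCc, eventually_ge_atTop (1 : ℝ),
    ev_small (K := (N2 : ℝ) * (2 * Real.exp Ta)) hkp0 one_pos,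
    ev_small (K := (N2 : ℝ) * (2 * Real.exp Tb)) hkp0 one_pos,
    ev_small (K := (N2 : ℝ) * ((1 / w) ^ M * ((M : ℝ) / v))) hkp0
      (show (0 : ℝ) < 1 / 30 by norm_num),
    ev_small (K := (2 : ℝ) ^ N2 * (N2 * w)) hkp0 (show (0 : ℝ) < 1 / 30 by norm_num),
    ev_small (K := (4 : ℝ) ^ N2) one_pos (show (0 : ℝ) < 1 / (300 * B) by positivity),
    (tendsto_rpow_atTop (show 0 < κ / 2 by positivity)).eventually_ge_atTop ((2 / w) ^ E)]
    with s g1 g2 g3 g4 g5 g6 g7 g8 g9 g10 g11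
  intro V _ _ _ _ p e hW σ hσ
  have hPW := hW.toPWorld
  have hp := hPW.law
  have hs0 : 0 < s := by linarith
  obtain ⟨n, hn1, hn2, hDa, hDb⟩ := good_scale hp hCa0 hCb0 hN8
  rw [← hTa] at hDa
  rw [← hTb] at hDb
  have hnI : n ∈ Finset.Icc N (N ^ 2) := Finset.mem_Icc.2 ⟨hn1, hn2⟩
  have hn0 : 1 ≤ n := by omega
  have hn0' : (0 : ℝ) < n := by exact_mod_cast hn0
  have hnN2 : n ≤ N2 := by omega
  have hnlog : Real.log n ≤ Real.log ((N : ℝ) ^ 2) := by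
    apply Real.log_le_log hn0'
    exact_mod_cast hn2
  have hNn : (N : ℝ) ≤ n := by exact_mod_cast hn1
  -- the thresholds
  obtain ⟨θ, hθ⟩ : ∃ θ : ℕ → ℝ, ∀ i, θ i = s ^ (-(kp * ((M : ℝ) + 2) ^ i)) :=
    ⟨fun i => s ^ (-(kp * ((M : ℝ) + 2) ^ i)), fun i => rfl⟩
  have hM2 : (1 : ℝ) ≤ (M : ℝ) + 2 := by
    have := Nat.cast_nonneg (α := ℝ) M
    linarith
  have hθ0 : ∀ i, 0 < θ i := fun i => by rw [hθ]; positivity
  have hθa : Antitone θ := by
    intro i j hij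
    rw [hθ, hθ]
    apply Real.rpow_le_rpow_of_exponent_le g5
    apply neg_le_neg
    exact mul_le_mul_of_nonneg_left (pow_le_pow_right₀ hM2 hij) hkp0.le
  have hθz : θ 0 = s ^ (-kp) := by rw [hθ, pow_zero, mul_one]
  have hθ1 : ∀ i, θ i ≤ 1 := by
    intro i
    rw [hθ]
    apply Real.rpow_le_one_of_one_le_of_nonpos g5
    have : 0 < kp * ((M : ℝ) + 2) ^ i := by positivity
    linarith
  have hθs : ∀ i, θ (i + 1) = θ i ^ (M + 2) := by
    intro i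
    rw [hθ, hθ, ← Real.rpow_natCast (s ^ _), ← Real.rpow_mul hs0.le]
    congr 1
    push_cast
    ring
  have hθE : (1 / θ I) ^ E ≤ s ^ (κ / 2) := by
    rw [hθ, one_div, ← Real.rpow_neg hs0.le, neg_neg, ← Real.rpow_natCast,
      ← Real.rpow_mul hs0.le]
    apply le_of_eq
    congr 1
    rw [hkp]
    have h1 : ((M : ℝ) + 2) ^ I ≠ 0 := by positivity
    field_simp
  rw [← hθz] at g6 g7 g8 g9
  have hMn : 4 * M₀ ≤ n := by omega
  obtain ⟨K, Hb, y, h⟩ := sel_core (σ := σ) (n := n) (M₀ := M₀) (G := G) (Λ := Λ) (r := r)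
    (I := I) (Ta := Ta) (Tb := Tb) (Tc := Tc) (Qa := 192 * Ca + 1) (Qb := Qb) (v := v) (w := w)
    (δ' := δ') (δ1 := δ1) (δ4 := δ') hPW g5 hκ' θ (by omega) hMn hr1 (by omega) hv0
    (by
      have := g1 V p e hW σ hσ
      rw [hM] at this
      exact this)
    (tight_lb_one hp hn0 (by rw [hTa]; exact mul_le_mul_of_nonneg_left (by linarith) hCa0.le)
      (g2 n hnI hn0 hn0 V p hPW))
    (tight_lb_one hp hn0 (by rw [hTb]; exact mul_le_mul_of_nonneg_left (by linarith) hCb0.le)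
      (g3 n hnI hn0 hn0 V p hPW))
    (by
      have h1 := tight_lb hp (show M ≤ n by omega) (T := Tc)
        (by rw [hTc]; exact mul_le_mul_of_nonneg_left (by linarith) hCc0.le)
        (g4 n hnI hn0 (by omega) V p hPW)
      subst hM
      exact h1)
    hw0 (hwy Ta (by linarith)) (hwy Tb (by linarith)) (hwx Tc (by linarith)) hθ0 hθa
    (numq hn0 hnN2 (hθ0 0).le hDa g6) hΛ0 hΛ
    (by rw [hQb]; exact numq hn0 hnN2 (hθ0 0).le hDb g7) hI1 hδ1p hδ'0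
    (by
      intro i _
      subst hM
      exact num3 hnN2 hw0 hv0 (hθ0 i) (hθ1 i) (hθa (Nat.zero_le i)) (hθs i) g8)
    (by
      subst hM
      exact num5 hv0 hB hδ' hQb0 hI1 (by linarith))
    (by
      subst hM
      refine num6 hv0 hB hδ' hQb0 hδ1 ?_
      have h1 : Del p Tb n ≤ (1 / (600 * B)) ^ 2 := by
        refine hDb.trans ?_
        rw [div_le_iff₀ hn0', div_pow, one_pow, div_mul_eq_mul_div, one_mul,
          le_div_iff₀ (by positivity)]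
        linarith
      have h2 : √(Del p Tb n) ≤ 1 / (600 * B) := by
        rw [← Real.sqrt_sq (show 0 ≤ 1 / (600 * B) by positivity)]
        exact Real.sqrt_le_sqrt h1
      have h3 : 2 * (1 / (600 * B)) = 1 / (300 * B) := by
        field_simp
        norm_num
      linarith)
    (by
      have hr0 : (0 : ℝ) < r := by exact_mod_cast hr1
      rw [div_le_iff₀ (by positivity)]
      have h1 : 30 * Qb / δ1 ≤ r := by linarith
      rw [div_le_iff₀ hδ1p] at h1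
      linarith)
    (by
      intro i _
      subst hM
      exact num8 hnN2 hw0 (hθ0 i) (hθa (Nat.zero_le i)) g9)
    (by
      subst hM
      refine num9 hv0 hB hnN2 g5 hδ' ?_ ?_
      · refine hNr2.trans ?_
        exact mul_le_mul_of_nonneg_left hNn (by positivity)
      · rw [← Real.rpow_neg_one]
        exact g10)
    (by
      intro i hi
      subst hM
      exact numdim hnN2 hw0 hw1 (hθ0 i) (hθ1 i) (hθa hi.le) hs0 (hθ0 I) hE hθE g11)
  exact ⟨n, v, K, Hb, y, h⟩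

end Pool.Agent.XO
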